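import Pool.Agent.helper75.S6D.Spec

/-!
# Project s6, row P6C: the coefficients of `P6`
-/

set_option autoImplicit false

open Polynomial Finset

noncomputable section

namespace Pool.Agent.S6D

open Pool.Agent.PSA

theorem P6C_deg (A b c : ℤ) : (P6 A b c).natDegree = 6 := by
  unfold P6
  compute_degree!

theorem P6C_co (A b c : ℤ) (n : ℕ) : (P6 A b c).coeff n = (if n = 6 then 1 else 0) -
    A * (if n = 5 then 1 else 0) + (3 - b) * (if n = 4 then 1 else 0) - c * (if n = 3 then 1 else 0) +
    (3 - b) * (if n = 2 then 1 else 0) - A * (if 1 = n then 1 else 0) + (if n = 0 then 1 else 0) := by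
  unfold P6
  simp only [coeff_add, coeff_sub, coeff_C_mul, coeff_X_pow, coeff_X, coeff_one]

theorem P6C : P6C_stmt := by
  intro A b c
  refine ⟨?_, P6C_deg A b c, ?_, ?_, ?_, ?_, ?_, ?_⟩
  · unfold Monic leadingCoeff
    rw [P6C_deg, P6C_co]
    norm_num
  all_goals
    rw [P6C_co]
    norm_num

end Pool.Agent.S6D
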